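import Mathlib
import Pool.Agent.W546.ST.Defs
import Pool.Agent.Helper82.OS.amgm
import Pool.Agent.Helper82.OS.sym2

/-!
ST-SYM: averaging over `t ↦ -t` for the general normal form.
-/
set_option autoImplicit false
open Matrix MeasureTheory Set Metric Filter Topology

namespace Pool.Agent.W597.ST
open Pool.Agent.Helper82.OS Pool.Agent.W546.ST

variable {N : ℕ} (G : GN N)

/-- projection of `w` to `e^⊥` -/
noncomputable def prg (w : E (N + 1)) : E (N + 1) := w - (inner ℝ w G.e : ℝ) • G.e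

theorem pars (w : E (N + 1)) : G.u2 w + inner ℝ w G.e ^ 2 = ‖w‖ ^ 2 := by
  let v : Option (Fin N) → E (N + 1) := fun o => o.elim G.e G.q
  have hv : Orthonormal ℝ v := by
    rw [orthonormal_iff_ite]
    have hq := orthonormal_iff_ite.1 G.hq
    intro i j
    rcases i with _ | i <;> rcases j with _ | j
    · simp only [v, Option.elim, if_true]
      rw [real_inner_self_eq_norm_sq, G.he, one_pow]
    · simp only [v, Option.elim]
      rw [if_neg (by simp), real_inner_comm]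
      exact G.hqe j
    · simp only [v, Option.elim]
      rw [if_neg (by simp)]
      exact G.hqe i
    · simp only [v, Option.elim]
      rw [hq i j]
      simp [Option.some_inj]
  have hcard : Fintype.card (Option (Fin N)) = Module.finrank ℝ (E (N + 1)) := by
    simp
  let b := basisOfOrthonormalOfCardEqFinrank hv hcard
  have hb : ⇑b = v := coe_basisOfOrthonormalOfCardEqFinrank hv hcard
  let B := b.toOrthonormalBasis (by rw [hb]; exact hv)
  have hB : ⇑B = v := by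
    rw [Module.Basis.coe_toOrthonormalBasis, hb]
  have h := B.sum_sq_norm_inner_left w
  rw [← h, Fintype.sum_option]
  simp only [hB, v, Option.elim, Real.norm_eq_abs, sq_abs, GN.u2]
  rw [add_comm]

theorem u2_nonneg (w : E (N + 1)) : 0 ≤ G.u2 w := Finset.sum_nonneg fun _ _ => sq_nonneg _

theorem u2_prg (w : E (N + 1)) : G.u2 w = ‖prg G w‖ ^ 2 := by
  have h := pars G w
  rw [prg, norm_sub_sq_real, real_inner_smul_right, norm_smul, G.he, Real.norm_eq_abs, mul_one,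
    sq_abs]
  linarith

theorem c_le (j : Fin N) : G.c j ^ 2 ≤ 1 := by
  have h := G.hcs j
  have : 0 ≤ ∑ a : Fin (N + 1), ‖G.Ga j (EuclideanSpace.single a 1)‖ ^ 2 :=
    Finset.sum_nonneg fun _ _ => sq_nonneg _
  linarith

theorem eta_bd (w : E (N + 1)) : 0 ≤ G.eta w ∧ G.eta w ≤ 1 ∧ G.eta w ≤ G.del := by
  refine ⟨?_, ?_, ?_⟩
  · refine div_nonneg (Finset.sum_nonneg fun j _ => ?_) (u2_nonneg G w)
    exact mul_nonneg (by linarith [c_le G j]) (sq_nonneg _)
  · refine div_le_one_of_le₀ ?_ (u2_nonneg G w)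
    refine Finset.sum_le_sum fun j _ => ?_
    nlinarith [sq_nonneg (inner ℝ w (G.q j) : ℝ), sq_nonneg (G.c j)]
  · refine div_le_of_le_mul₀ (u2_nonneg G w)
      (Finset.sum_nonneg fun j _ => by linarith [c_le G j]) ?_
    rw [GN.del, Finset.sum_mul]
    refine Finset.sum_le_sum fun j _ => mul_le_mul_of_nonneg_left ?_ (by linarith [c_le G j])
    exact Finset.single_le_sum (f := fun j => (inner ℝ w (G.q j) : ℝ) ^ 2)
      (fun _ _ => sq_nonneg _) (Finset.mem_univ j)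

theorem quad (t : ℝ) (w : E (N + 1)) (n : Fin N → ℝ) :
    n ⬝ᵥ (G.Gm t w *ᵥ n) = ‖∑ j, n j • G.Mv t w j‖ ^ 2 + (∑ j, n j * G.lv w j) ^ 2 := by
  rw [← real_inner_self_eq_norm_sq, sum_inner]
  simp only [inner_sum, real_inner_smul_left, real_inner_smul_right]
  simp only [dotProduct, Matrix.mulVec, GN.Gm, Matrix.of_apply]
  rw [sq, Finset.sum_mul_sum, ← Finset.sum_add_distrib]
  refine Finset.sum_congr rfl fun i _ => ?_
  rw [Finset.mul_sum, ← Finset.sum_add_distrib]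
  refine Finset.sum_congr rfl fun j _ => ?_
  ring

theorem psd (t : ℝ) (w : E (N + 1)) : (G.Gm t w).PosSemidef := by
  refine Matrix.PosSemidef.of_dotProduct_mulVec_nonneg ?_ ?_
  · ext i j
    simp only [Matrix.conjTranspose_apply, GN.Gm, Matrix.of_apply, star_trivial]
    rw [real_inner_comm]
    ring
  · intro n
    have h : star n = n := by
      funext i
      simp
    rw [h, quad]
    positivity

theorem skw (j : Fin N) (w : E (N + 1)) : inner ℝ (G.Ga j w) w = (0 : ℝ) := by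
  have h := G.hsk j w w
  rw [real_inner_comm] at h
  rw [real_inner_comm]
  linarith

theorem mv_prg (t : ℝ) (w : E (N + 1)) (j : Fin N) :
    inner ℝ (G.Mv t w j) (prg G w) = t * G.lv w j - inner ℝ w G.e * inner ℝ (G.Ga j w) G.e := by
  unfold GN.Mv prg GN.lv
  simp only [inner_sub_right, inner_add_left, real_inner_smul_left, real_inner_smul_right,
    G.hqe j, skw]
  rw [real_inner_comm w (G.q j)]
  ring

theorem sum_lv (w : E (N + 1)) (hu : G.u2 w ≠ 0) :
    ∑ j, G.lv w j ^ 2 = G.u2 w * (1 - G.eta w) := by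
  have h1 : G.u2 w * G.eta w = ∑ j, (1 - G.c j ^ 2) * inner ℝ w (G.q j) ^ 2 := by
    unfold GN.eta
    rw [mul_div_cancel₀ _ hu]
  have h2 : G.u2 w * (1 - G.eta w) = G.u2 w - G.u2 w * G.eta w := by ring
  rw [h2, h1]
  unfold GN.u2 GN.lv
  rw [← Finset.sum_sub_distrib]
  refine Finset.sum_congr rfl fun j _ => ?_
  ring

theorem trc (t : ℝ) (w : E (N + 1)) (hu : G.u2 w ≠ 0) :
    (G.Gm t w).trace = ((N : ℝ) - G.del) * t ^ 2 + (1 - G.eta w) * G.u2 w + G.Bq w := by
  have h1 : ∀ j, G.Gm t w j j = t ^ 2 * (1 - (1 - G.c j ^ 2)) +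
      (2 * t) * (-(inner ℝ (G.c j • G.Ga j (G.q j)) w)) + ‖G.Ga j w‖ ^ 2 + G.lv w j ^ 2 := by
    intro j
    have e1 : inner ℝ (G.q j) (G.q j) = (1:ℝ) := by
      rw [real_inner_self_eq_norm_sq, G.hq.1 j, one_pow]
    have e2 : inner ℝ (G.Ga j w) (G.Ga j w) = ‖G.Ga j w‖ ^ 2 := real_inner_self_eq_norm_sq _
    have e3 : (inner ℝ (G.q j) (G.Ga j w) : ℝ) = -(inner ℝ (G.Ga j (G.q j)) w) := by
      have := G.hsk j (G.q j) w
      linarith
    have e4 : (inner ℝ (G.Ga j w) (G.q j) : ℝ) = inner ℝ (G.q j) (G.Ga j w) := real_inner_comm _ _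
    simp only [GN.Gm, GN.Mv, Matrix.of_apply, inner_add_left, inner_add_right,
      real_inner_smul_left, real_inner_smul_right, e1, e2, e4]
    rw [e3]
    ring
  rw [Matrix.trace]
  simp only [Matrix.diag_apply, h1]
  rw [Finset.sum_add_distrib, Finset.sum_add_distrib, Finset.sum_add_distrib, ← Finset.mul_sum,
    ← Finset.mul_sum, Finset.sum_neg_distrib, ← sum_inner, G.hcrit, inner_zero_left,
    sum_lv G w hu, Finset.sum_sub_distrib]
  simp only [Finset.sum_const, Finset.card_univ, Fintype.card_fin, nsmul_eq_mul, mul_one,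
    GN.del, GN.Bq]
  ring

/-- Rayleigh lower bound -/
theorem ray (hN : 1 ≤ N) (t : ℝ) (w : E (N + 1)) (hu : G.u2 w ≠ 0) :
    ∃ n : Fin N → ℝ, n ⬝ᵥ n = 1 ∧
      (1 - G.eta w) * (t ^ 2 + G.u2 w) - 2 * t * G.k2 w ≤ n ⬝ᵥ (G.Gm t w *ᵥ n) := by
  have hu0 : 0 < G.u2 w := lt_of_le_of_ne (u2_nonneg G w) (Ne.symm hu)
  have hL := sum_lv G w hu
  set L := ∑ j, G.lv w j ^ 2 with hLdef
  have hL0 : 0 ≤ L := Finset.sum_nonneg fun _ _ => sq_nonneg _
  have heta : 1 - G.eta w = L / G.u2 w := by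
    rw [hL]
    field_simp
  rcases hL0.eq_or_lt with h0 | hpos
  · -- all `lv` vanish
    have hlv : ∀ j, G.lv w j = 0 := by
      intro j
      have h1 : ∀ j ∈ Finset.univ, G.lv w j ^ 2 = 0 :=
        (Finset.sum_eq_zero_iff_of_nonneg (fun _ _ => sq_nonneg _)).1 h0.symm
      exact pow_eq_zero_iff (two_ne_zero) |>.1 (h1 j (Finset.mem_univ j))
    have hk : G.k2 w = 0 := by
      unfold GN.k2
      have : ∑ j, G.lv w j * inner ℝ (G.Ga j w) G.e = 0 :=
        Finset.sum_eq_zero fun j _ => by rw [hlv j, zero_mul]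
      rw [this]
      simp
    refine ⟨Pi.single ⟨0, by omega⟩ 1, by simp, ?_⟩
    rw [heta, ← h0, hk]
    have h2 := quad G t w (Pi.single ⟨0, by omega⟩ 1)
    rw [h2]
    have : (0:ℝ) / G.u2 w * (t ^ 2 + G.u2 w) - 2 * t * 0 = 0 := by simp
    rw [this]
    positivity
  · set r := Real.sqrt L with hr
    have hr0 : 0 < r := Real.sqrt_pos.2 hpos
    have hr2 : r ^ 2 = L := Real.sq_sqrt hL0
    refine ⟨fun j => G.lv w j / r, ?_, ?_⟩
    · simp only [dotProduct]
      have h1 : ∀ j, G.lv w j / r * (G.lv w j / r) = G.lv w j ^ 2 / r ^ 2 := by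
        intro j
        field_simp
      simp_rw [h1]
      rw [← Finset.sum_div, hr2, ← hLdef, div_self hpos.ne']
    · rw [quad]
      set S := ∑ j, G.lv w j * inner ℝ (G.Ga j w) G.e with hS
      have h1 : ∑ j, G.lv w j / r * G.lv w j = r := by
        have : ∀ j, G.lv w j / r * G.lv w j = G.lv w j ^ 2 / r := fun j => by ring
        simp_rw [this]
        rw [← Finset.sum_div, ← hLdef, ← hr2]
        field_simp
      rw [h1, hr2]
      set y := ∑ j, (G.lv w j / r) • G.Mv t w j with hy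
      have h2 : inner ℝ y (prg G w) = (t * L - inner ℝ w G.e * S) / r := by
        rw [hy, sum_inner]
        simp_rw [real_inner_smul_left, mv_prg]
        rw [hLdef, hS, Finset.mul_sum, Finset.mul_sum, ← Finset.sum_sub_distrib, Finset.sum_div]
        refine Finset.sum_congr rfl fun j _ => ?_
        ring
      have h3 : inner ℝ y (prg G w) ^ 2 ≤ ‖y‖ ^ 2 * G.u2 w := by
        rw [u2_prg, ← mul_pow, ← sq_abs]
        exact pow_le_pow_left₀ (abs_nonneg _) (abs_real_inner_le_norm _ _) 2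
      rw [h2, div_pow, hr2] at h3
      have h4 : t ^ 2 * L - 2 * t * (inner ℝ w G.e * S) ≤ (t * L - inner ℝ w G.e * S) ^ 2 / L := by
        rw [le_div_iff₀ hpos]
        nlinarith [sq_nonneg (inner ℝ w G.e * S)]
      have h5 : t ^ 2 * L - 2 * t * (inner ℝ w G.e * S) ≤ ‖y‖ ^ 2 * G.u2 w := h4.trans h3
      have h6 : (1 - G.eta w) * (t ^ 2 + G.u2 w) - 2 * t * G.k2 w =
          (t ^ 2 * L - 2 * t * (inner ℝ w G.e * S)) / G.u2 w + L := by
        rw [heta]
        unfold GN.k2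
        rw [← hS]
        field_simp
        ring
      rw [h6]
      have h7 : (t ^ 2 * L - 2 * t * (inner ℝ w G.e * S)) / G.u2 w ≤ ‖y‖ ^ 2 := by
        rw [div_le_iff₀ hu0]
        exact h5
      linarith

/-- `b = α β` -/
noncomputable def bb (w : E (N + 1)) : ℝ := (G.Bq w + G.k2 w ^ 2 / G.al w) / ((N : ℝ) - 1)

theorem sym_one (hN : 2 ≤ N) (t : ℝ) (w : E (N + 1)) (hu : G.u2 w ≠ 0)
    (ht : t ≠ 0) (hal : 0 < G.al w) (hal1 : G.al w ≤ 1) (hb : 0 ≤ bb G w) :
    G.FF t w ≤ Real.sqrt ((t ^ 2 + G.u2 w + bb G w) * (G.al w * t ^ 2 + bb G w) ^ (N - 1)) *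
      Real.exp ((- ((G.k2 w ^ 2 / G.al w) / (G.al w * t ^ 2 + bb G w)) - G.eta w +
        2 * (t * (G.k2 w * (1 / (G.al w * t ^ 2 + bb G w) - 1 / (t ^ 2 + G.u2 w + bb G w))))) / 2) := by
  have hN1 : (0:ℝ) < (N:ℝ) - 1 := by
    have : (2:ℝ) ≤ N := by exact_mod_cast hN
    linarith
  have hN0 : (0:ℝ) < N := by linarith
  have hu0 : 0 < G.u2 w := lt_of_le_of_ne (u2_nonneg G w) (Ne.symm hu)
  have ht2 : 0 < t ^ 2 := by positivity
  obtain ⟨he0, he1, hed⟩ := eta_bd G w
  obtain ⟨n, hn, hray⟩ := ray G (by omega) t w hu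
  set α := G.al w with hα
  set b := bb G w with hbd
  set u := G.u2 w with hud
  set η := G.eta w with hη
  set k := G.k2 w with hk
  have ha : 0 < α * t ^ 2 + b := by positivity
  have hag : α * t ^ 2 + b ≤ t ^ 2 + u + b := by nlinarith
  have hg0 : 0 < t ^ 2 + u + b := by positivity
  obtain ⟨h1, h2⟩ := amgm (by omega) (G.Gm t w) (psd G t w) n hn
    ((1 - η) * (t ^ 2 + u) - 2 * t * k) (α * t ^ 2 + b) (t ^ 2 + u + b) hray ha hag
  set Y := ((((G.Gm t w).trace - ((1 - η) * (t ^ 2 + u) - 2 * t * k)) / (α * t ^ 2 + b) +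
    ((1 - η) * (t ^ 2 + u) - 2 * t * k) / (t ^ 2 + u + b)) / N) with hY
  have htr := trc G t w hu
  have hNb : ((N:ℝ) - 1) * b = G.Bq w + k ^ 2 / α := by
    rw [hbd]
    unfold bb
    rw [mul_div_cancel₀ _ hN1.ne']
  have hNα : ((N:ℝ) - 1) * α = (N:ℝ) - 1 - (G.del - η) := by
    rw [hα]
    unfold GN.al
    rw [mul_sub, mul_div_cancel₀ _ hN1.ne', mul_one]
  have hNY : (N:ℝ) * Y ≤ N + (- ((k ^ 2 / α) / (α * t ^ 2 + b)) - η +
        2 * (t * (k * (1 / (α * t ^ 2 + b) - 1 / (t ^ 2 + u + b))))) := by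
    have e1 : (N:ℝ) * Y = ((G.Gm t w).trace - ((1 - η) * (t ^ 2 + u) - 2 * t * k)) /
        (α * t ^ 2 + b) + ((1 - η) * (t ^ 2 + u) - 2 * t * k) / (t ^ 2 + u + b) := by
      rw [hY]
      field_simp
    have e2 : (G.Gm t w).trace - ((1 - η) * (t ^ 2 + u) - 2 * t * k) =
        ((N:ℝ) - 1) * (α * t ^ 2 + b) - (k ^ 2 / α) + 2 * t * k := by
      rw [htr]
      have e3 : ((N:ℝ) - 1) * (α * t ^ 2 + b) = ((N:ℝ) - 1 - (G.del - η)) * t ^ 2 +
          (G.Bq w + k ^ 2 / α) := by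
        rw [← hNα, ← hNb]
        ring
      rw [e3]
      ring
    have e4 : (((N:ℝ) - 1) * (α * t ^ 2 + b) - (k ^ 2 / α) + 2 * t * k) /
        (α * t ^ 2 + b) = ((N:ℝ) - 1) - (k ^ 2 / α) / (α * t ^ 2 + b) +
          2 * t * (k * (1 / (α * t ^ 2 + b))) := by
      rw [add_div, sub_div, mul_div_cancel_right₀ _ ha.ne']
      ring
    have e5 : ((1 - η) * (t ^ 2 + u) - 2 * t * k) / (t ^ 2 + u + b) ≤
        (1 - η) - 2 * t * (k * (1 / (t ^ 2 + u + b))) := by
      have e6 : ((1 - η) * (t ^ 2 + u) - 2 * t * k) / (t ^ 2 + u + b) =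
          (1 - η) * (t ^ 2 + u) / (t ^ 2 + u + b) - 2 * t * (k * (1 / (t ^ 2 + u + b))) := by
        ring
      have : (1 - η) * (t ^ 2 + u) / (t ^ 2 + u + b) ≤ 1 - η := by
        rw [div_le_iff₀ hg0]
        nlinarith
      rw [e6]
      linarith
    rw [e1, e2, e4]
    have e7 : 2 * (t * (k * (1 / (α * t ^ 2 + b) - 1 / (t ^ 2 + u + b)))) =
        2 * t * (k * (1 / (α * t ^ 2 + b))) - 2 * t * (k * (1 / (t ^ 2 + u + b))) := by ring
    rw [e7]
    linarith
  unfold GN.FF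
  calc Real.sqrt (G.Gm t w).det
      ≤ Real.sqrt ((t ^ 2 + u + b) * (α * t ^ 2 + b) ^ (N - 1) * Y ^ N) := Real.sqrt_le_sqrt h1
    _ = Real.sqrt ((t ^ 2 + u + b) * (α * t ^ 2 + b) ^ (N - 1)) * Real.sqrt (Y ^ N) := by
        rw [Real.sqrt_mul (by positivity)]
    _ ≤ _ := mul_le_mul_of_nonneg_left (Fr.sym2_exp_sym2x N Y _ h2 hNY) (Real.sqrt_nonneg _)

theorem SYM : St_SYM := by
  intro N hN3 G t w hu ht hal
  have hN : 2 ≤ N := by omega
  have hN1 : (0:ℝ) < (N:ℝ) - 1 := by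
    have : (2:ℝ) ≤ N := by exact_mod_cast hN
    linarith
  have hu0 : 0 < G.u2 w := lt_of_le_of_ne (u2_nonneg G w) (Ne.symm hu)
  have ht2 : 0 < t ^ 2 := by positivity
  obtain ⟨he0, he1, hed⟩ := eta_bd G w
  have hBq : 0 ≤ G.Bq w := Finset.sum_nonneg fun _ _ => by positivity
  have hb : 0 ≤ bb G w := by
    unfold bb
    have := hal
    positivity
  have hal1 : G.al w ≤ 1 := by
    unfold GN.al
    have : 0 ≤ (G.del - G.eta w) / ((N:ℝ) - 1) := div_nonneg (by linarith) hN1.le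
    linarith
  have hbe : 0 ≤ G.be w := div_nonneg hb hal.le
  refine ⟨hbe, ?_⟩
  have p1 := sym_one G hN t w hu ht hal hal1 hb
  have p2 := sym_one G hN (-t) w hu (neg_ne_zero.2 ht) hal hal1 hb
  rw [neg_sq] at p2
  set α := G.al w with hα
  set b := bb G w with hbd
  set u := G.u2 w with hud
  set η := G.eta w with hη
  set k := G.k2 w with hk
  set a := α * t ^ 2 + b with ha'
  set g := t ^ 2 + u + b with hg'
  have ha : 0 < a := by positivity
  have hg : 0 < g := by positivity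
  have hag : a ≤ g := by rw [ha', hg']; nlinarith
  set Dd := (k ^ 2 / α) / a with hD
  set z := t * (k * (1 / a - 1 / g)) with hz
  have hz2 : z ^ 2 ≤ Dd := by
    have hga : 1 / g ≤ 1 / a := one_div_le_one_div_of_le ha hag
    have hg1 : 0 < 1 / g := by positivity
    have ha1 : 0 < 1 / a := by positivity
    have hd0 : 0 ≤ 1 / a - 1 / g := by linarith
    have hd1 : (1 / a - 1 / g) ^ 2 ≤ (1 / a) ^ 2 := by
      apply pow_le_pow_left₀ hd0; linarith
    have q1 : z ^ 2 = k ^ 2 * t ^ 2 * (1 / a - 1 / g) ^ 2 := by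
      rw [hz]; ring
    have q3 : t ^ 2 ≤ a / α := by
      rw [le_div_iff₀ hal, ha']
      nlinarith
    have q4 : Dd = k ^ 2 * (a / α) * (1 / a) ^ 2 := by
      rw [hD]
      field_simp
    rw [q1, q4]
    gcongr
  have hch : (Real.exp ((-Dd - η + 2 * z) / 2) +
      Real.exp ((-Dd - η + 2 * (-t * (k * (1 / a - 1 / g)))) / 2)) / 2
      ≤ Real.exp (-(η / 2)) := by
    have r1 : (-Dd - η + 2 * z) / 2 = (-(Dd / 2) - η / 2) + z := by ring
    have r2 : (-Dd - η + 2 * (-t * (k * (1 / a - 1 / g)))) / 2 = (-(Dd / 2) - η / 2) + -z := by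
      rw [hz]; ring
    rw [r1, r2, Real.exp_add, Real.exp_add]
    have r3 : (Real.exp (-(Dd / 2) - η / 2) * Real.exp z +
        Real.exp (-(Dd / 2) - η / 2) * Real.exp (-z)) / 2 =
        Real.exp (-(Dd / 2) - η / 2) * Real.cosh z := by
      rw [Real.cosh_eq]; ring
    rw [r3]
    calc Real.exp (-(Dd / 2) - η / 2) * Real.cosh z
        ≤ Real.exp (-(Dd / 2) - η / 2) * Real.exp (z ^ 2 / 2) :=
          mul_le_mul_of_nonneg_left (Real.cosh_le_exp_half_sq z) (Real.exp_pos _).le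
      _ = Real.exp (-(Dd / 2) - η / 2 + z ^ 2 / 2) := by rw [Real.exp_add]
      _ ≤ Real.exp (-(η / 2)) := Real.exp_le_exp.2 (by linarith)
  have havg : (G.FF t w + G.FF (-t) w) / 2 ≤ Real.sqrt (g * a ^ (N - 1)) * Real.exp (-(η / 2)) := by
    calc (G.FF t w + G.FF (-t) w) / 2 ≤
        (Real.sqrt (g * a ^ (N - 1)) * Real.exp ((-Dd - η + 2 * z) / 2) +
          Real.sqrt (g * a ^ (N - 1)) *
            Real.exp ((-Dd - η + 2 * (-t * (k * (1 / a - 1 / g)))) / 2)) / 2 := by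
          linarith
      _ = Real.sqrt (g * a ^ (N - 1)) * ((Real.exp ((-Dd - η + 2 * z) / 2) +
          Real.exp ((-Dd - η + 2 * (-t * (k * (1 / a - 1 / g)))) / 2)) / 2) := by ring
      _ ≤ _ := mul_le_mul_of_nonneg_left hch (Real.sqrt_nonneg _)
  refine havg.trans ?_
  have hbeb : G.be w = b / α := rfl
  have haα : a = α * (t ^ 2 + G.be w) := by
    rw [hbeb, ha']
    field_simp
  have hgle : g ≤ t ^ 2 + u + G.be w := by
    rw [hbeb, hg']
    have : b ≤ b / α := by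
      rw [le_div_iff₀ hal]
      nlinarith
    linarith
  have hαe : Real.sqrt (α ^ (N - 1)) ≤ Real.exp (-(G.del - η) / 2) := by
    have s1 : α ≤ Real.exp (-((G.del - η) / ((N:ℝ) - 1))) := by
      have := Real.add_one_le_exp (-((G.del - η) / ((N:ℝ) - 1)))
      have s2 : α = 1 - (G.del - η) / ((N:ℝ) - 1) := rfl
      linarith
    have s3 : α ^ (N - 1) ≤ Real.exp (-(G.del - η)) := by
      calc α ^ (N - 1) ≤ (Real.exp (-((G.del - η) / ((N:ℝ) - 1)))) ^ (N - 1) :=
            pow_le_pow_left₀ hal.le s1 _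
        _ = Real.exp (((N - 1 : ℕ) : ℝ) * (-((G.del - η) / ((N:ℝ) - 1)))) := by
            rw [← Real.exp_nat_mul]
        _ = Real.exp (-(G.del - η)) := by
            congr 1
            rw [Nat.cast_sub (by omega), Nat.cast_one]
            field_simp
    calc Real.sqrt (α ^ (N - 1)) ≤ Real.sqrt (Real.exp (-(G.del - η))) := Real.sqrt_le_sqrt s3
      _ = _ := by rw [Real.exp_half]
  have hfin : Real.sqrt (g * a ^ (N - 1)) ≤ Real.sqrt (t ^ 2 + u + G.be w) *
      (Real.exp (-(G.del - η) / 2) * Real.sqrt ((t ^ 2 + G.be w) ^ (N - 1))) := by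
    rw [Real.sqrt_mul hg.le, haα, mul_pow, Real.sqrt_mul (by positivity)]
    have s4 : 0 ≤ Real.sqrt ((t ^ 2 + G.be w) ^ (N - 1)) := Real.sqrt_nonneg _
    refine mul_le_mul (Real.sqrt_le_sqrt hgle) (mul_le_mul_of_nonneg_right hαe s4)
      (by positivity) (Real.sqrt_nonneg _)
  calc Real.sqrt (g * a ^ (N - 1)) * Real.exp (-(η / 2)) ≤
      (Real.sqrt (t ^ 2 + u + G.be w) *
      (Real.exp (-(G.del - η) / 2) * Real.sqrt ((t ^ 2 + G.be w) ^ (N - 1)))) *
        Real.exp (-(η / 2)) := mul_le_mul_of_nonneg_right hfin (Real.exp_pos _).le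
    _ = (Real.exp (-(G.del - η) / 2) * Real.exp (-(η / 2))) * Real.sqrt (t ^ 2 + u + G.be w) *
        Real.sqrt ((t ^ 2 + G.be w) ^ (N - 1)) := by ring
    _ = _ := by
        rw [← Real.exp_add]
        congr 3
        ring

end Pool.Agent.W597.ST
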