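import Pool.Agent.W994.ST.Stm

/-! Project ST: the nondeterministic program for directed connectivity. -/

set_option autoImplicit false

namespace Pool.Agent.W597.ST

open Pool.Agent.W994.ST
open Pool.Agent.H554R2.Thrifty (BP)

/-- the queries -/
def qq {k : ℕ} (s : Fin k) : Option (Fin k × Bool) → Fin k × Bool
  | none => (s, false)
  | some v => v

/-- the edges -/
def QE {k : ℕ} (s t : Fin k) (q : Option (Fin k × Bool)) (y : Fin k)
    (u : Option (Fin k × Bool) ⊕ Bool) : Prop :=
  match q with
  | none => if s = t then u = Sum.inr true else ∃ b : Bool, u = Sum.inl (some (s, b))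
  | some _ => if y = t then u = Sum.inr true else ∃ b : Bool, u = Sum.inl (some (y, b))

/-- the program -/
def PP (k : ℕ) (s t : Fin k) : BP (Fin k × Bool) k where
  State := Option (Fin k × Bool)
  start := none
  query := qq s
  edge := QE s t

/-- the paths -/
def QP {k : ℕ} (s t : Fin k) (x : Input k) : List (Option (Fin k × Bool)) → Bool → Prop
  | [], _ => False
  | [q], r => QE s t q (x (qq s q)) (Sum.inr r)
  | q :: q' :: l, r => QE s t q (x (qq s q)) (Sum.inl q') ∧ QP s t x (q' :: l) r

variable {k : ℕ} {s t : Fin k} {x : Input k}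

theorem isPath_iff (r : Bool) (l : List (Option (Fin k × Bool))) :
    (PP k s t).IsPath x l r ↔ QP s t x l r := by
  induction l with
  | nil => exact Iff.rfl
  | cons q l ih =>
    cases l with
    | nil => exact Iff.rfl
    | cons q' l => exact and_congr Iff.rfl ih

theorem edge_none (y : Fin k) (u : Option (Fin k × Bool) ⊕ Bool) :
    QE s t none y u ↔
      if s = t then u = Sum.inr true else ∃ b : Bool, u = Sum.inl (some (s, b)) := Iff.rfl

theorem edge_some (v : Fin k × Bool) (y : Fin k) (u : Option (Fin k × Bool) ⊕ Bool) :
    QE s t (some v) y u ↔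
      if y = t then u = Sum.inr true else ∃ b : Bool, u = Sum.inl (some (y, b)) := Iff.rfl

theorem path_one (q : Option (Fin k × Bool)) (r : Bool) :
    QP s t x [q] r ↔ QE s t q (x (qq s q)) (Sum.inr r) := Iff.rfl

theorem path_cons (q q' : Option (Fin k × Bool)) (l : List (Option (Fin k × Bool))) (r : Bool) :
    QP s t x (q :: q' :: l) r ↔
      QE s t q (x (qq s q)) (Sum.inl q') ∧ QP s t x (q' :: l) r :=
  Iff.rfl

theorem query_some (v : Fin k × Bool) : qq s (some v) = v := rfl

/-- paths lead to `t`, and all their vertices can be reached -/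
theorem sound (l : List (Option (Fin k × Bool))) : ∀ (a : Fin k) (c : Bool),
    QP s t x (some (a, c) :: l) true →
    Reach x a t ∧ ∀ v, some v ∈ l → Reach x a v.1 ∧ v.1 ≠ t := by
  induction l with
  | nil =>
    intro a c h
    rw [path_one, edge_some, query_some] at h
    refine ⟨?_, by simp⟩
    split_ifs at h with h1
    · exact Relation.ReflTransGen.single ⟨c, h1⟩
    · obtain ⟨b, hb⟩ := h
      simp at hb
  | cons q l ih =>
    intro a c h
    rw [path_cons, edge_some, query_some] at h
    obtain ⟨h1, h2⟩ := h
    split_ifs at h1 with h3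
    · obtain ⟨b, hb⟩ := h1
      rw [Sum.inl.injEq] at hb
      subst hb
      have hstep : Reach x a (x (a, c)) := Relation.ReflTransGen.single ⟨c, rfl⟩
      obtain ⟨h4, h5⟩ := ih _ _ h2
      refine ⟨hstep.trans h4, ?_⟩
      intro v hv
      rcases List.mem_cons.1 hv with h6 | h6
      · rw [Option.some.injEq] at h6
        subst h6
        exact ⟨hstep, h3⟩
      · exact ⟨hstep.trans (h5 v h6).1, (h5 v h6).2⟩

theorem path_suffix (pre : List (Option (Fin k × Bool))) : ∀ (q : Option (Fin k × Bool))
    (suf : List (Option (Fin k × Bool))) (r : Bool),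
    QP s t x (pre ++ q :: suf) r → QP s t x (q :: suf) r := by
  induction pre with
  | nil => intro q suf r h; exact h
  | cons p pre ih =>
    intro q suf r h
    apply ih q suf r
    cases pre with
    | nil => exact ((path_cons p q suf r).1 h).2
    | cons p' pre => exact ((path_cons p p' (pre ++ q :: suf) r).1 h).2

theorem exists_path (a : Fin k) (h : Reach x a t) : a ≠ t →
    ∃ (c : Bool) (l : List (Fin k × Bool)), QP s t x ((((a, c) :: l)).map some) true ∧
      (((a, c) :: l).map Prod.fst).Nodup := by
  unfold Reach at h
  induction h using Relation.ReflTransGen.head_induction_on with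
  | refl => intro h; exact absurd rfl h
  | head hab hbt ih =>
    rename_i a b
    intro ha
    obtain ⟨c, hc⟩ := hab
    by_cases hb : b = t
    · refine ⟨c, [], ?_, by simp⟩
      rw [List.map_cons, List.map_nil, path_one, edge_some, query_some, hc, if_pos hb]
    · obtain ⟨c', l, h1, h2⟩ := ih hb
      by_cases hmem : a ∈ ((b, c') :: l).map Prod.fst
      · rw [List.mem_map] at hmem
        obtain ⟨⟨a', c''⟩, h3, h4⟩ := hmem
        simp only at h4
        subst h4
        obtain ⟨pre, suf, h5⟩ := List.append_of_mem h3
        refine ⟨c'', suf, ?_, ?_⟩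
        · rw [h5, List.map_append, List.map_cons] at h1
          exact path_suffix _ _ _ _ h1
        · rw [h5, List.map_append] at h2
          exact h2.of_append_right
      · refine ⟨c, (b, c') :: l, ?_, ?_⟩
        · rw [List.map_cons, List.map_cons, path_cons, edge_some, query_some, hc, if_neg hb]
          exact ⟨⟨c', rfl⟩, h1⟩
        · rw [List.map_cons, List.nodup_cons]
          exact ⟨hmem, h2⟩

theorem qcomp (x : Input k) (h : Reach x s t) :
    ∃ l : List (Option (Fin k × Bool)), (l.head? = some none ∧ QP s t x l true) ∧
      l.length ≤ nReach x s := by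
  classical
  by_cases hst : s = t
  · refine ⟨[none], ⟨rfl, ?_⟩, ?_⟩
    · rw [path_one, edge_none, if_pos hst]
    · unfold nReach
      have h1 : ({s} : Set (Fin k)) ⊆ {v | Reach x s v} := by
        intro v hv
        rw [Set.mem_singleton_iff] at hv
        subst hv
        exact Relation.ReflTransGen.refl
      have h2 := Set.ncard_le_ncard h1 (Set.toFinite _)
      rw [Set.ncard_singleton] at h2
      exact h2
  · obtain ⟨c, l, h1, h2⟩ := exists_path (s := s) s h hst
    refine ⟨none :: ((s, c) :: l).map some, ⟨rfl, ?_⟩, ?_⟩
    · rw [List.map_cons, path_cons, edge_none, if_neg hst]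
      exact ⟨⟨c, rfl⟩, h1⟩
    · have h3 := (sound _ s c h1).2
      have h4 : (t :: ((s, c) :: l).map Prod.fst).Nodup := by
        rw [List.nodup_cons]
        refine ⟨?_, h2⟩
        intro h5
        rw [List.mem_map] at h5
        obtain ⟨v, hv, hvt⟩ := h5
        rcases List.mem_cons.1 hv with h6 | h6
        · rw [h6] at hvt
          exact hst hvt
        · exact (h3 v (List.mem_map.2 ⟨v, h6, rfl⟩)).2 hvt
      have h5 : ((t :: ((s, c) :: l).map Prod.fst).toFinset : Set (Fin k)) ⊆
          {v | Reach x s v} := by
        intro v hv
        rw [Finset.mem_coe, List.mem_toFinset, List.mem_cons] at hv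
        rcases hv with hv | hv
        · rw [hv]; exact h
        · rw [List.mem_map] at hv
          obtain ⟨w, hw, hwv⟩ := hv
          rw [← hwv]
          rcases List.mem_cons.1 hw with h6 | h6
          · rw [h6]; exact Relation.ReflTransGen.refl
          · exact (h3 w (List.mem_map.2 ⟨w, h6, rfl⟩)).1
      have h6 := Set.ncard_le_ncard h5 (Set.toFinite _)
      rw [Set.ncard_coe_finset, List.toFinset_card_of_nodup h4] at h6
      unfold nReach
      rw [List.length_cons, List.length_map] at h6 ⊢
      exact h6

theorem main : NBPProp := by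
  classical
  intro k s t
  refine ⟨PP k s t, ?_, ?_⟩
  · show Fintype.card (Option (Fin k × Bool)) + 2 = 2 * k + 3
    rw [Fintype.card_option, Fintype.card_prod, Fintype.card_fin, Fintype.card_bool]
    ring
  · intro x
    refine ⟨⟨fun h => ?_, ?_⟩, fun h => ?_⟩
    · obtain ⟨l, hl, _⟩ := qcomp (s := s) (t := t) x h
      exact ⟨l, hl.1, (isPath_iff true l).2 hl.2⟩
    · rintro ⟨l, hl, hp⟩
      have hp := (isPath_iff true l).1 hp
      by_cases hst : s = t
      · rw [hst]; exact Relation.ReflTransGen.refl
      have key : ∀ l : List (Option (Fin k × Bool)), l.head? = some none →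
          QP s t x l true → Reach x s t := by
        intro l hl hp
        cases l with
        | nil => simp at hl
        | cons q l =>
          rw [List.head?_cons, Option.some.injEq] at hl
          subst hl
          cases l with
          | nil =>
            rw [path_one, edge_none, if_neg hst] at hp
            obtain ⟨b, hb⟩ := hp
            simp at hb
          | cons q' l =>
            rw [path_cons, edge_none, if_neg hst] at hp
            obtain ⟨⟨b, hb⟩, hp2⟩ := hp
            rw [Sum.inl.injEq] at hb
            subst hb
            exact (sound l s b hp2).1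
      exact key l hl hp
    · obtain ⟨l, hl, h2⟩ := qcomp (s := s) (t := t) x h
      exact ⟨l, ⟨hl.1, (isPath_iff true l).2 hl.2⟩, h2⟩

end Pool.Agent.W597.ST
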